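import Pool.Agent.Results.MP_451483_gt.PathConnected

/-!
# Invariant metrics with path connected balls on abelian M-groups

Stronger form of `PathConnected` (MP_451483_gt, Q1 and Q2).  An abelian group is an M-group if and
only if it carries a group norm all of whose open balls are path connected; the norm can be chosen
such that every element `g` of norm less than `1/8` can be joined to `0` by a path in
`{h : ‖h‖ < ‖g‖} ∪ {g}`, and such that the closures of small balls are path connected.
-/

set_option autoImplicit false

namespace Pool.Agent.Results.MP_451483_gt.ConnectedBalls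

open PathConnected Pool.Agent.H20R3.MG Cardinal Topology

universe u

/-- All open balls of the group norm `ν` are path connected. -/
def PathConnectedBalls {G : Type u} [AddCommGroup G] (ν : AddGroupNorm G) : Prop :=
  letI := ν.toNormedAddCommGroup
  ∀ (x : G) (r : ℝ), 0 < r → IsPathConnected (Metric.ball x r)

/-- Every `g` with `ν g < 1/8` is joined to `0` by a path all of whose points are equal to `g` or
of smaller norm. -/
def DescendingPaths {G : Type u} [AddCommGroup G] (ν : AddGroupNorm G) : Prop :=
  letI := ν.toNormedAddCommGroup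
  ∀ g : G, ‖g‖ < 1 / 8 → ∃ γ : Path (0 : G) g, ∀ t, ‖γ t‖ < ‖g‖ ∨ γ t = g

/-- The topology of the group norm `ν`. -/
@[reducible] def normTopology {G : Type u} [AddCommGroup G] (ν : AddGroupNorm G) : TopologicalSpace G :=
  letI := ν.toNormedAddCommGroup
  inferInstance

open GlueAux in
theorem glueNorm {G : Type u} {Λ F : Type*} [AddCommGroup G] [AddCommGroup F]
    (N : Λ → AddGroupSeminorm F) (π : Λ → F →+ G)
    (hpaths : ∀ a, Pool.Agent.H20R3.MG.HasPaths (N a)) (hsurj : ∀ g : G, g ∈ ⨆ a, (π a).range)
    (hker : ∀ ξ : Λ →₀ F, (ξ.sum fun a f => π a f) = 0 →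
      (∀ a, N a (ξ a) = 0) ∨ ∃ a, (1 / 4 : ℝ) ≤ N a (ξ a))
    (hnull : ∀ a f, N a f = 0 → π a f = 0) :
    ∃ ν : AddGroupNorm G, PathConnectedBalls ν ∧ DescendingPaths ν := by
  classical
  have hs : ∀ g : G, ∃ ξ, PP π ξ = g := PP_surj π hsurj
  have hPnull : ∀ ξ, NL N ξ = 0 → PP π ξ = 0 := by
    intro ξ hξ
    rw [PP_apply, Finsupp.sum]
    apply Finset.sum_eq_zero
    intro a _
    exact hnull a _ ((NL_eq_zero_iff N ξ).1 hξ a)
  let nrm : AddGroupNorm G :=
    { toFun := NG N π
      map_zero' := by
        apply le_antisymm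
        · have := NG_le N π 0
          rw [map_zero, NL_zero] at this
          exact this
        · exact NG_nonneg N π 0
      add_le' := by
        intro g h
        apply le_of_forall_pos_le_add
        intro ε hε
        obtain ⟨ξ, hξ, h1⟩ := exists_near (N := N) hs g (half_pos hε)
        obtain ⟨η, hη, h2⟩ := exists_near (N := N) hs h (half_pos hε)
        have h3 := NG_le N π (ξ + η)
        rw [map_add, hξ, hη] at h3
        have h4 := NL_add_le N ξ η
        linarith
      neg' := by
        have key : ∀ g, NG N π (-g) ≤ NG N π g := by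
          intro g
          apply le_of_forall_pos_le_add
          intro ε hε
          obtain ⟨ξ, hξ, h1⟩ := exists_near (N := N) hs g hε
          have h3 := NG_le N π (-ξ)
          rw [map_neg, hξ, NL_neg] at h3
          linarith
        intro g
        apply le_antisymm (key g)
        have := key (-g)
        rwa [neg_neg] at this
      eq_zero_of_map_eq_zero' := by
        intro g hg
        obtain ⟨ξ, hξ, h1⟩ := NG_attained (N := N) (1 / 4) hs hker g
          (by
            have : NG N π g = 0 := hg
            rw [this]; norm_num)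
        have : NG N π g = 0 := hg
        rw [← hξ]
        exact hPnull ξ (h1.trans this) }
  refine ⟨nrm, ?_⟩
  letI inst : NormedAddCommGroup G := nrm.toNormedAddCommGroup
  have hnorm : ∀ g : G, ‖g‖ = NG N π g := fun _ => rfl
  -- joining
  have hjoin : ∀ (ξ : Λ →₀ F) (x : G) (W : Set G),
      (∀ η, NL N η < NL N ξ ∨ NL N (η - ξ) = 0 → x + PP π η ∈ W) →
      JoinedIn W x (x + PP π ξ) := by
    intro ξ x W hW
    obtain ⟨Γ, h0, h1, hc, hn⟩ := NL_hasPaths N hpaths ξ
    apply JoinedIn.ofLine (f := fun s => x + PP π (Γ s))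
    · apply ContinuousOn.add continuousOn_const
      rw [Metric.continuousOn_iff]
      intro s hs' ε hε
      obtain ⟨d, hd0, hd⟩ := hc s hs' ε hε
      refine ⟨d, hd0, ?_⟩
      intro s' hs'' hdist
      rw [Real.dist_eq] at hdist
      rw [dist_eq_norm, ← map_sub, hnorm]
      exact lt_of_le_of_lt (NG_le N π _) (hd s' hs'' hdist)
    · simp [h0]
    · simp [h1]
    · rintro _ ⟨s, hs', rfl⟩
      exact hW _ (hn s hs')
  have heq : ∀ η ξ : Λ →₀ F, NL N (η - ξ) = 0 → PP π η = PP π ξ := by
    intro η ξ h
    have := hPnull _ h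
    rw [map_sub, sub_eq_zero] at this
    exact this
  constructor
  · intro x r hr
    refine ⟨x, Metric.mem_ball_self hr, ?_⟩
    intro y hy
    have hyn : NG N π (y - x) < r := by
      rw [Metric.mem_ball, dist_eq_norm, hnorm] at hy
      exact hy
    obtain ⟨ξ, hξ, h1⟩ := exists_near (N := N) hs (y - x) (sub_pos.2 hyn)
    have h1' : NL N ξ < r := by linarith
    have hxy : x + PP π ξ = y := by rw [hξ]; abel
    rw [← hxy]
    apply hjoin
    intro η hη
    rw [Metric.mem_ball, dist_eq_norm, add_sub_cancel_left, hnorm]
    rcases hη with h | h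
    · exact (NG_le N π η).trans_lt (h.trans h1')
    · rw [heq η ξ h]
      exact (NG_le N π ξ).trans_lt h1'
  · intro g hg
    rw [hnorm] at hg
    obtain ⟨ξ, hξ, h1⟩ := NG_attained (N := N) (1 / 4) hs hker g (by linarith)
    have hJ := hjoin ξ 0 {h | ‖h‖ < ‖g‖ ∨ h = g} (by
      intro η hη
      rw [zero_add]
      rcases hη with h | h
      · left
        rw [hnorm, hnorm]
        exact (NG_le N π η).trans_lt (h.trans_eq h1)
      · right
        rw [heq η ξ h, hξ])
    rw [zero_add, hξ] at hJ
    exact ⟨hJ.somePath, fun t => hJ.somePath_mem t⟩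

theorem norm_of_hasSystem (G : Type u) [AddCommGroup G] (h : HasSystem G) :
    ∃ ν : AddGroupNorm G, PathConnectedBalls ν ∧ DescendingPaths ν := by
  classical
  obtain ⟨Λ, _, d, n, g, x, hadm, hdg, hnx, hcl, hind⟩ := h
  choose N Z C hG using fun a => gadget_exists (n a) (d a) (hadm a)
  let π : Λ → F →+ G := fun a => (zmultiplesHom G (g a)).comp (Z a) + (cmb (x a)).comp (C a)
  have hπ : ∀ a f, π a f = Z a f • g a + (C a f).sum fun i m => m • x a i := fun a f => rfl
  apply glueNorm N π (fun a => (hG a).1)
  · intro y
    have hy : y ∈ AddSubgroup.closure (Set.range g) := by rw [hcl]; exact AddSubgroup.mem_top y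
    refine (AddSubgroup.closure_le _).2 ?_ hy
    rintro _ ⟨a, rfl⟩
    obtain ⟨c, hc1, hc2⟩ := (hG a).2.2.2
    refine AddSubgroup.mem_iSup_of_mem a ⟨c, ?_⟩
    rw [hπ, hc1, hc2, one_smul, Finsupp.sum_zero_index, add_zero]
  · intro ξ hξ
    by_cases hall : ∀ a, N a (ξ a) = 0
    · exact Or.inl hall
    · right
      push Not at hall
      obtain ⟨a₀, ha₀⟩ := hall
      let A : Finset Λ := ξ.support.filter (fun a => N a (ξ a) ≠ 0)
      have hAmem : ∀ a, N a (ξ a) ≠ 0 → a ∈ A := by
        intro a ha
        rw [Finset.mem_filter, Finsupp.mem_support_iff]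
        refine ⟨?_, ha⟩
        intro h0
        apply ha
        rw [h0, map_zero]
      have hAne : A.Nonempty := ⟨a₀, hAmem a₀ ha₀⟩
      refine ⟨A.max' hAne, ?_⟩
      have hmaxmem := A.max'_mem hAne
      set a := A.max' hAne with hadef
      have hmax : ∀ b ∈ A, b ≤ a := fun b hb => A.le_max' b hb
      have hdiv : ∀ i, (n a i.1 : ℤ) ∣ C a (ξ a) i := by
        by_contra hcon
        push Not at hcon
        obtain ⟨i, hi⟩ := hcon
        let z : Λ →₀ ℤ := Finsupp.onFinset ξ.support (fun a => Z a (ξ a)) (by
          intro b hb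
          rw [Finsupp.mem_support_iff]
          intro h0
          apply hb
          rw [h0, map_zero])
        have hz : ∀ b, z b = Z b (ξ b) := fun b => rfl
        obtain ⟨b, hab, hb⟩ := hind z (fun b => C b (ξ b)) ξ.support
          (by
            intro b hb
            rw [Finsupp.notMem_support_iff] at hb
            rw [hz, hb, map_zero, map_zero]
            exact ⟨rfl, rfl⟩)
          (by
            rw [← hξ, Finsupp.sum]
            apply Finset.sum_congr rfl
            intro b _
            rw [hπ, hz])
          a i hi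
        have hNb : N b (ξ b) ≠ 0 := by
          intro h0
          have h1 := (hG b).2.1 (ξ b) h0
          rcases hb with hb | ⟨i', hb⟩
          · exact hb h1.1
          · exact hb (h1.2 i')
        exact absurd (hmax b (hAmem b hNb)) (not_le.2 hab)
      rcases (hG a).2.2.1 (ξ a) hdiv with h | h
      · exact absurd h (Finset.mem_filter.1 hmaxmem).2
      · exact h
  · intro a f hf
    have h1 := (hG a).2.1 f hf
    rw [hπ, zsmul_eq_zero_of_dvd (d a) (g a) (hdg a) _ h1.1, zero_add, Finsupp.sum]
    apply Finset.sum_eq_zero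
    intro i _
    exact zsmul_eq_zero_of_dvd (n a i.1) (x a i) (hnx a i) _ (h1.2 i)

/-- Closures of small balls are path connected. -/
theorem closure_ball {G : Type u} [AddCommGroup G] (ν : AddGroupNorm G) (h : DescendingPaths ν) :
    letI := ν.toNormedAddCommGroup
    ∀ (x : G) (r : ℝ), 0 < r → r < 1 / 8 → IsPathConnected (closure (Metric.ball x r)) := by
  letI := ν.toNormedAddCommGroup
  intro x r hr hr8
  refine ⟨x, subset_closure (Metric.mem_ball_self hr), ?_⟩
  intro y hy
  have hy1 : dist y x ≤ r := Metric.closure_ball_subset_closedBall hy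
  rw [dist_eq_norm] at hy1
  obtain ⟨γ, hγ⟩ := h (y - x) (by linarith)
  refine ⟨((γ.map (f := fun g : G => x + g) (by fun_prop)).cast (by simp) (by abel)), ?_⟩
  intro t
  show x + γ t ∈ closure (Metric.ball x r)
  rcases hγ t with h1 | h1
  · apply subset_closure
    rw [Metric.mem_ball, dist_eq_norm, add_sub_cancel_left]
    linarith
  · rw [h1, add_sub_cancel]
    exact hy

/-- A group with a norm all of whose balls are path connected is an M-group. -/
theorem isMGroup {G : Type u} [AddCommGroup G] (ν : AddGroupNorm G) (h : PathConnectedBalls ν) :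
    IsMGroup G := by
  letI := ν.toNormedAddCommGroup
  intro H hH hcl
  haveI hcl' : IsClosed (H : Set G) := hcl inferInstance inferInstance inferInstance
  obtain ⟨g, hg⟩ : ∃ g, g ∉ H := by
    by_contra hcon
    push Not at hcon
    exact hH ((AddSubgroup.eq_top_iff' H).2 hcon)
  obtain ⟨y, hy, hJ⟩ := h 0 (‖g‖ + 1) (by positivity)
  have h0 : (0 : G) ∈ Metric.ball (0 : G) (‖g‖ + 1) := Metric.mem_ball_self (by positivity)
  have h1 : g ∈ Metric.ball (0 : G) (‖g‖ + 1) := by rw [mem_ball_zero_iff]; linarith
  obtain ⟨γ, -⟩ := (hJ h0).symm.trans (hJ h1)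
  have hcont : Continuous fun t => (QuotientAddGroup.mk (γ t) : G ⧸ H) :=
    QuotientAddGroup.continuous_mk.comp γ.continuous
  set f : unitInterval → G ⧸ H := fun t => QuotientAddGroup.mk (γ t) with hf
  have hne : f 0 ≠ f 1 := by
    intro heq
    have : (QuotientAddGroup.mk (0 : G) : G ⧸ H) = QuotientAddGroup.mk g := by
      have := heq
      simpa [hf] using this
    rw [QuotientAddGroup.eq] at this
    apply hg
    simpa using this
  haveI : CompactSpace (Set.range f) := isCompact_iff_compactSpace.1 (isCompact_range hcont)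
  let F' : unitInterval → Set.range f := fun t => ⟨f t, t, rfl⟩
  have hF' : Continuous F' := hcont.subtype_mk _
  have hneF : F' 0 ≠ F' 1 := fun h => hne (congrArg Subtype.val h)
  obtain ⟨v, hv0, hv1, -⟩ := exists_continuous_zero_one_of_isClosed
    (isClosed_singleton (x := F' 0)) (isClosed_singleton (x := F' 1))
    (Set.disjoint_singleton.2 hneF)
  have hv0' : v (F' 0) = 0 := hv0 rfl
  have hv1' : v (F' 1) = 1 := hv1 rfl
  have hsur : ∀ r : Set.Icc (0 : ℝ) 1, ∃ t : unitInterval, v (F' t) = r := by
    intro r
    have := intermediate_value_univ (0 : unitInterval) 1 (v.continuous.comp hF')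
    simp only [Function.comp, hv0', hv1'] at this
    exact this r.2
  choose p hp using hsur
  have hinj : Function.Injective fun r : Set.Icc (0 : ℝ) 1 => f (p r) := by
    intro r r' hrr
    have h2 : F' (p r) = F' (p r') := Subtype.ext hrr
    apply Subtype.ext
    rw [← hp r, ← hp r', h2]
  have hle := Cardinal.lift_mk_le_lift_mk_of_injective hinj
  rw [Cardinal.mk_Icc_real zero_lt_one, Cardinal.lift_continuum, Cardinal.lift_id'.{0, u}] at hle
  exact hle

/-- **Main theorem.** An abelian group `G` is an M-group if and only if it carries a group norm all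
of whose open balls are path connected.  Moreover the norm of an M-group can be chosen such that
every `g` of norm less than `1/8` is joined to `0` by a path whose points are `g` or of smaller norm;
then its topology is a pathwise connected and locally pathwise connected group topology. -/
theorem result (G : Type u) [AddCommGroup G] :
    (IsMGroup G ↔ ∃ ν : AddGroupNorm G, PathConnectedBalls ν) ∧
    (IsMGroup G → ∃ ν : AddGroupNorm G, PathConnectedBalls ν ∧ DescendingPaths ν ∧
      @IsTopologicalAddGroup G (normTopology ν) _ ∧ @T2Space G (normTopology ν) ∧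
      @PathConnectedSpace G (normTopology ν) ∧ @LocallyPathwiseConnected G (normTopology ν)) := by
  have key : IsMGroup G → ∃ ν : AddGroupNorm G, PathConnectedBalls ν ∧ DescendingPaths ν := fun hG =>
    norm_of_hasSystem G (hasSystem G (mCond_of hG))
  refine ⟨⟨fun hG => ?_, fun ⟨ν, h⟩ => isMGroup ν h⟩, fun hG => ?_⟩
  · obtain ⟨ν, h, -⟩ := key hG
    exact ⟨ν, h⟩
  · obtain ⟨ν, h1, h2⟩ := key hG
    letI := ν.toNormedAddCommGroup
    refine ⟨ν, h1, h2, inferInstanceAs (IsTopologicalAddGroup G), inferInstanceAs (T2Space G), ?_,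
      ?_⟩
    · show PathConnectedSpace G
      rw [pathConnectedSpace_iff_univ]
      refine ⟨0, Set.mem_univ _, ?_⟩
      intro g _
      obtain ⟨y, hy, hJ⟩ := h1 0 (‖g‖ + 1) (by positivity)
      have h0 : (0 : G) ∈ Metric.ball (0 : G) (‖g‖ + 1) := Metric.mem_ball_self (by positivity)
      have h3 : g ∈ Metric.ball (0 : G) (‖g‖ + 1) := by rw [mem_ball_zero_iff]; linarith
      exact ((hJ h0).symm.trans (hJ h3)).mono (Set.subset_univ _)
    · show LocallyPathwiseConnected G
      intro x U hU hx
      obtain ⟨ρ, hρ, hball⟩ := Metric.isOpen_iff.1 hU x hx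
      have hr : 0 < min (ρ / 2) (1 / 16) := lt_min (by linarith) (by norm_num)
      refine ⟨Metric.ball x (min (ρ / 2) (1 / 16)), Metric.isOpen_ball,
        Metric.mem_ball_self hr, ?_, closure_ball ν h2 x _ hr ?_⟩
      · refine subset_trans Metric.closure_ball_subset_closedBall (subset_trans ?_ hball)
        apply Metric.closedBall_subset_ball
        have := min_le_left (ρ / 2) (1 / 16)
        linarith
      · have := min_le_right (ρ / 2) (1 / 16)
        linarith

end Pool.Agent.Results.MP_451483_gt.ConnectedBalls
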